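import Pool.Agent.Lib.MP_b525e0_co.SC.Ex
import Pool.Agent.Lib.MP_b525e0_co.SC.Cyc

/-!
The amplitude function has no zero for all graphs of maximum degree at most `D` exactly when
`D ≤ 2`.
-/

namespace Pool.Agent.Results.MP_b525e0_co.DegreeThreshold

open Pool.Agent.Lib.MP_b525e0_co.SC

theorem result (D : ℕ) :
    (∀ (n : ℕ) (G : SimpleGraph (Fin n)) [DecidableRel G.Adj],
      (∀ v, G.degree v ≤ D) → ZeroFree G) ↔ D ≤ 2 := by
  constructor
  · intro h
    by_contra hD
    exact cubic_not_zeroFree (h 10 cubic fun v => (cubic_degree v).trans (by omega))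
  · intro hD n G _ h
    exact zeroFree_of_sub2 fun v => sub2_of_degree ((h v).trans hD)

end Pool.Agent.Results.MP_b525e0_co.DegreeThreshold
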