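import Mathlib

/-!
A counterexample to the nonvanishing of the graph amplitude function: a tree on 11 vertices
(a spider with five legs of length two) and an integral planar configuration with amplitude `0`.
-/

namespace Pool.Agent.Results.MP_b525e0_co.SpiderZero

open Complex Matrix

/-- The matrix `u · σ = u₁ σ₁ + u₂ σ₂ + u₃ σ₃` built from the three Pauli matrices. -/
noncomputable def pauliDot (u : EuclideanSpace ℝ (Fin 3)) : Matrix (Fin 2) (Fin 2) ℂ :=
  (u 0 : ℂ) • !![0, 1; 1, 0] + (u 1 : ℂ) • !![0, -I; I, 0] + (u 2 : ℂ) • !![1, 0; 0, -1]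

/-- The unit vector `(q - p) / ‖q - p‖` pointing from `p` to `q`. -/
noncomputable def dir (p q : EuclideanSpace ℝ (Fin 3)) : EuclideanSpace ℝ (Fin 3) :=
  ‖q - p‖⁻¹ • (q - p)

/-- The symplectic form `ω(a, b) = a₁ b₂ - a₂ b₁` on `ℂ²`. -/
def omega (a b : EuclideanSpace ℂ (Fin 2)) : ℂ := a 0 * b 1 - a 1 * b 0

/-- `ψ` assigns to every ordered pair `(i, j)` of adjacent vertices (a dart of `G`) a unit vector
`ψ_ij` of `ℂ²` with `(u_ij · σ) ψ_ij = ψ_ij`, where `u_ij` is the direction from `x_i` to `x_j`. -/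
def IsSpinorChoice {n : ℕ} (G : SimpleGraph (Fin n)) (x : Fin n → EuclideanSpace ℝ (Fin 3))
    (ψ : G.Dart → EuclideanSpace ℂ (Fin 2)) : Prop :=
  ∀ d : G.Dart, ‖ψ d‖ = 1 ∧
    (pauliDot (dir (x d.fst) (x d.snd))).mulVec (ψ d).ofLp = (ψ d).ofLp

/-- `Δ` contains exactly one of `(i, j)`, `(j, i)` for each edge. -/
def IsOrientation {n : ℕ} (G : SimpleGraph (Fin n)) (Δ : Finset G.Dart) : Prop :=
  ∀ d : G.Dart, d ∈ Δ ↔ d.symm ∉ Δ

open Classical in
/-- The numerator of the amplitude: the sum, over the permutations `σ` of the darts that preserve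
the first coordinate, of `∏_{(i,j) ∈ Δ} ω(ψ_{σ(i,j)}, ψ_{σ(j,i)})`. -/
noncomputable def numerator {n : ℕ} (G : SimpleGraph (Fin n))
    (ψ : G.Dart → EuclideanSpace ℂ (Fin 2)) (Δ : Finset G.Dart) : ℂ :=
  ∑ σ ∈ Finset.univ.filter (fun σ : Equiv.Perm G.Dart => ∀ d, (σ d).fst = d.fst),
    ∏ d ∈ Δ, omega (ψ (σ d)) (ψ (σ d.symm))

/-- The denominator of the amplitude: `∏_{(i,j) ∈ Δ} ω(ψ_ij, ψ_ji)`. -/
noncomputable def denominator {n : ℕ} (G : SimpleGraph (Fin n))
    (ψ : G.Dart → EuclideanSpace ℂ (Fin 2)) (Δ : Finset G.Dart) : ℂ :=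
  ∏ d ∈ Δ, omega (ψ d) (ψ d.symm)

/-- The `G`-amplitude computed from the spinors `ψ` and the orientation `Δ`. -/
noncomputable def amplitude {n : ℕ} (G : SimpleGraph (Fin n))
    (ψ : G.Dart → EuclideanSpace ℂ (Fin 2)) (Δ : Finset G.Dart) : ℂ :=
  numerator G ψ Δ / denominator G ψ Δ

/-! ### General lemmas -/

theorem omega_antisymm (a b : EuclideanSpace ℂ (Fin 2)) : omega b a = - omega a b := by
  unfold omega; ring

theorem omega_smul (c c' : ℂ) (a b : EuclideanSpace ℂ (Fin 2)) :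
    omega (c • a) (c' • b) = c * c' * omega a b := by
  simp only [omega, PiLp.smul_apply, smul_eq_mul]; ring

theorem prod_orient {n : ℕ} {G : SimpleGraph (Fin n)} [Fintype G.Dart] {Δ : Finset G.Dart}
    (hΔ : IsOrientation G Δ) (f : G.Dart → ℂ) :
    ∏ d ∈ Δ, (f d * f d.symm) = ∏ d, f d := by
  classical
  rw [Finset.prod_mul_distrib, ← Finset.prod_mul_prod_compl Δ f]
  congr 1
  refine Finset.prod_bij' (fun d _ => d.symm) (fun d _ => d.symm) ?_ ?_ ?_ ?_ ?_
  · intro d hd
    rw [Finset.mem_compl]; exact (hΔ d).1 hd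
  · intro d hd
    rw [Finset.mem_compl] at hd
    rw [hΔ]; simpa using hd
  · intro d _; simp
  · intro d _; simp
  · intro d _; rfl

theorem orient_change {n : ℕ} {G : SimpleGraph (Fin n)} {Δ Δ₀ : Finset G.Dart}
    (hΔ : IsOrientation G Δ) (hΔ₀ : IsOrientation G Δ₀) :
    ∃ ε : ℂ, ε ≠ 0 ∧ ∀ F : G.Dart → ℂ, (∀ d, F d.symm = - F d) →
      ∏ d ∈ Δ, F d = ε * ∏ d ∈ Δ₀, F d := by
  classical
  refine ⟨∏ d ∈ Δ₀, (if d ∈ Δ then 1 else -1), ?_, ?_⟩
  · rw [Finset.prod_ne_zero_iff]
    intro d _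
    split_ifs <;> norm_num
  · intro F hF
    rw [← Finset.prod_mul_distrib]
    symm
    refine Finset.prod_bij' (fun d _ => if d ∈ Δ then d else d.symm)
      (fun d _ => if d ∈ Δ₀ then d else d.symm) ?_ ?_ ?_ ?_ ?_
    · intro d _
      by_cases h : d ∈ Δ
      · simp [h]
      · simp only [h, if_false]
        rw [hΔ]; simpa using h
    · intro d _
      by_cases h : d ∈ Δ₀
      · simp [h]
      · simp only [h, if_false]
        rw [hΔ₀]; simpa using h
    · intro d hd
      by_cases h : d ∈ Δ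
      · simp [h, hd]
      · have : d.symm ∉ Δ₀ := (hΔ₀ d).1 hd
        simp [h, this]
    · intro d hd
      by_cases h : d ∈ Δ₀
      · simp [h, hd]
      · have : d.symm ∉ Δ := (hΔ d).1 hd
        simp [h, this]
    · intro d _
      by_cases h : d ∈ Δ
      · simp [h]
      · simp [h, hF]

/-- The real vector attached to an integer pair. -/
noncomputable def vec3 (a : ℤ × ℤ × ℤ) : EuclideanSpace ℝ (Fin 3) :=
  !₂[(a.1 : ℝ), (a.2.1 : ℝ), (a.2.2 : ℝ)]

/-- The complex spinor attached to an integer pair. -/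
noncomputable def vec2 (a : ℤ × ℤ) : EuclideanSpace ℂ (Fin 2) := !₂[(a.1 : ℂ), (a.2 : ℂ)]

theorem vec3_sub (a b : ℤ × ℤ × ℤ) : vec3 a - vec3 b = vec3 (a - b) := by
  ext i
  fin_cases i <;> simp [vec3]

/-- The direction vector of the spinor `(p, q)`. -/
def hopf (a : ℤ × ℤ) : ℤ × ℤ × ℤ := (2 * a.1 * a.2, 0, a.1 ^ 2 - a.2 ^ 2)

theorem norm_hopf (a : ℤ × ℤ) : ‖vec3 (hopf a)‖ = (a.1 : ℝ) ^ 2 + (a.2 : ℝ) ^ 2 := by
  rw [EuclideanSpace.norm_eq, Real.sqrt_eq_iff_mul_self_eq (by positivity) (by positivity)]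
  simp only [vec3, hopf, Fin.sum_univ_three, Real.norm_eq_abs, sq_abs]
  simp
  ring

theorem pauli_hopf (a : ℤ × ℤ) (ha : a.1 ^ 2 + a.2 ^ 2 ≠ 0) (v : Fin 2 → ℂ) :
    (pauliDot (‖vec3 (hopf a)‖⁻¹ • vec3 (hopf a))).mulVec v = v ↔
      (a.1 : ℂ) * v 1 = (a.2 : ℂ) * v 0 := by
  have hn : ((a.1 : ℂ) ^ 2 + (a.2 : ℂ) ^ 2) ≠ 0 := by exact_mod_cast ha
  rw [norm_hopf]
  have key : (pauliDot (((a.1 : ℝ) ^ 2 + (a.2 : ℝ) ^ 2)⁻¹ • vec3 (hopf a))).mulVec v =
      ![(((a.1 : ℂ) ^ 2 - (a.2 : ℂ) ^ 2) * v 0 + 2 * a.1 * a.2 * v 1) /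
          ((a.1 : ℂ) ^ 2 + (a.2 : ℂ) ^ 2),
        (2 * a.1 * a.2 * v 0 - ((a.1 : ℂ) ^ 2 - (a.2 : ℂ) ^ 2) * v 1) /
          ((a.1 : ℂ) ^ 2 + (a.2 : ℂ) ^ 2)] := by
    ext i
    fin_cases i
    · simp [pauliDot, vec3, hopf, Matrix.mulVec, dotProduct, Fin.sum_univ_two]
      field_simp
    · simp [pauliDot, vec3, hopf, Matrix.mulVec, dotProduct, Fin.sum_univ_two]
      field_simp
      ring
  rw [key]
  constructor
  · intro h
    have h0 := congrFun h 0
    have h1 := congrFun h 1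
    simp only [Matrix.cons_val_zero, Matrix.cons_val_one] at h0 h1
    rw [div_eq_iff hn] at h0 h1
    have : ((a.1 : ℂ) ^ 2 + (a.2 : ℂ) ^ 2) * ((a.1 : ℂ) * v 1 - (a.2 : ℂ) * v 0) = 0 := by
      linear_combination (a.2 / 2 : ℂ) * h0 - (a.1 / 2 : ℂ) * h1
    rcases mul_eq_zero.1 this with h | h
    · exact absurd h hn
    · exact sub_eq_zero.1 h
  · intro h
    ext i
    fin_cases i
    · simp only [Fin.zero_eta, Matrix.cons_val_zero]
      rw [div_eq_iff hn]
      linear_combination (2 * a.2 : ℂ) * h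
    · simp only [Fin.mk_one, Matrix.cons_val_one, Matrix.cons_val_zero]
      rw [div_eq_iff hn]
      linear_combination (-2 * a.1 : ℂ) * h

/-! ### The spider -/

/-- Tail of the dart with label `(i, k)`. -/
def tl (p : Fin 5 × Fin 4) : Fin 11 :=
  if p.2 = 0 then 0 else if p.2 = 3 then ⟨p.1.val + 6, by omega⟩ else ⟨p.1.val + 1, by omega⟩

/-- Label of the reversed dart. -/
def rev (p : Fin 5 × Fin 4) : Fin 5 × Fin 4 := (p.1, ![1, 0, 3, 2] p.2)

/-- The spider with centre `0`, middle vertices `1..5` and leaves `6..10`. -/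
def spider : SimpleGraph (Fin 11) where
  Adj i j := ∃ p : Fin 5 × Fin 4, tl p = i ∧ tl (rev p) = j
  symm := ⟨by
    have : ∀ i j : Fin 11, (∃ p : Fin 5 × Fin 4, tl p = i ∧ tl (rev p) = j) →
        ∃ p : Fin 5 × Fin 4, tl p = j ∧ tl (rev p) = i := by decide
    exact fun i j => this i j⟩
  loopless := ⟨by
    have : ∀ i : Fin 11, ¬ ∃ p : Fin 5 × Fin 4, tl p = i ∧ tl (rev p) = i := by decide
    exact this⟩

/-- The dart with a given label. -/
def toDart (p : Fin 5 × Fin 4) : spider.Dart := ⟨(tl p, tl (rev p)), ⟨p, rfl, rfl⟩⟩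

theorem toDart_bij : Function.Bijective toDart := by
  constructor
  · intro p q h
    have h' : (tl p, tl (rev p)) = (tl q, tl (rev q)) := congrArg SimpleGraph.Dart.toProd h
    revert p q
    decide
  · intro d
    obtain ⟨p, h1, h2⟩ := d.adj
    exact ⟨p, SimpleGraph.Dart.ext _ _ (Prod.ext h1 h2)⟩

/-- Labels of darts. -/
noncomputable def dartEquiv : Fin 5 × Fin 4 ≃ spider.Dart := Equiv.ofBijective toDart toDart_bij

theorem rev_rev (p : Fin 5 × Fin 4) : rev (rev p) = p := by revert p; decide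

theorem dartEquiv_symm (p : Fin 5 × Fin 4) : (dartEquiv p).symm = dartEquiv (rev p) := by
  apply SimpleGraph.Dart.ext
  change (tl (rev p), tl p) = (tl (rev p), tl (rev (rev p)))
  rw [rev_rev]

/-- Spinors of the first segments. -/
def sa : Fin 5 → ℤ × ℤ := ![(1, 1), (1, 2), (-1, 3), (-2, 1), (1, 0)]

/-- Spinors of the second segments. -/
def sb : Fin 5 → ℤ × ℤ := ![(0, 1), (0, 1), (-1, 1), (1, 0), (5, 4)]

/-- Integer spinors of all darts. -/
def sp (p : Fin 5 × Fin 4) : ℤ × ℤ :=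
  ![sa p.1, (-(sa p.1).2, (sa p.1).1), sb p.1, (-(sb p.1).2, (sb p.1).1)] p.2

/-- The configuration. -/
def pts : Fin 11 → ℤ × ℤ × ℤ :=
  ![(0, 0, 0), (2, 0, 0), (4, 0, -3), (-6, 0, -8), (-4, 0, 3), (0, 0, 1),
    (2, 0, -1), (4, 0, -4), (-8, 0, -8), (-4, 0, 4), (40, 0, 10)]

theorem pts_sub (p : Fin 5 × Fin 4) : pts (tl (rev p)) - pts (tl p) = hopf (sp p) := by
  revert p; decide

theorem sp_ne (p : Fin 5 × Fin 4) : (sp p).1 ^ 2 + (sp p).2 ^ 2 ≠ 0 := by
  revert p; decide

/-- Integer symplectic form. -/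
def om (a b : ℤ × ℤ) : ℤ := a.1 * b.2 - a.2 * b.1

theorem omega_vec2 (a b : ℤ × ℤ) : omega (vec2 a) (vec2 b) = (om a b : ℂ) := by
  simp [omega, vec2, om]

theorem om_ne (p : Fin 5 × Fin 4) : om (sp p) (sp (rev p)) ≠ 0 := by
  revert p; decide

theorem eigen_iff (p : Fin 5 × Fin 4) (v : Fin 2 → ℂ) :
    (pauliDot (dir (vec3 (pts (dartEquiv p).fst)) (vec3 (pts (dartEquiv p).snd)))).mulVec v = v ↔
      ((sp p).1 : ℂ) * v 1 = ((sp p).2 : ℂ) * v 0 := by
  rw [← pauli_hopf _ (sp_ne p), dir, vec3_sub]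
  change (pauliDot (‖vec3 (pts (tl (rev p)) - pts (tl p))‖⁻¹ •
    vec3 (pts (tl (rev p)) - pts (tl p)))).mulVec v = v ↔ _
  rw [pts_sub]

/-- The permutation of labels given by a permutation at the centre and swaps in the middle. -/
def mkFun (π : Fin 5 → Fin 5) (τ : Fin 5 → Bool) (p : Fin 5 × Fin 4) : Fin 5 × Fin 4 :=
  ![(π p.1, 0), (p.1, if τ p.1 then 2 else 1), (p.1, if τ p.1 then 1 else 2), (p.1, 3)] p.2

/-- The same as a permutation. -/
def mkPerm (π : Equiv.Perm (Fin 5)) (τ : Fin 5 → Bool) : Equiv.Perm (Fin 5 × Fin 4) where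
  toFun := mkFun π τ
  invFun := mkFun π.symm τ
  left_inv := by
    rintro ⟨i, k⟩
    fin_cases k <;> cases h : τ i <;> simp [mkFun, h]
  right_inv := by
    rintro ⟨i, k⟩
    fin_cases k <;> cases h : τ i <;> simp [mkFun, h]

theorem sum_labels (F : Equiv.Perm (Fin 5 × Fin 4) → ℂ) :
    ∑ σ ∈ Finset.univ.filter (fun σ : Equiv.Perm (Fin 5 × Fin 4) => ∀ p, tl (σ p) = tl p), F σ =
      ∑ π : Equiv.Perm (Fin 5), ∑ τ : Fin 5 → Bool, F (mkPerm π τ) := by
  rw [← Finset.sum_product']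
  symm
  refine Finset.sum_bij (fun q _ => mkPerm q.1 q.2) ?_ ?_ ?_ ?_
  · rintro ⟨π, τ⟩ _
    simp only [Finset.mem_filter, Finset.mem_univ, true_and]
    rintro ⟨i, k⟩
    change tl (mkFun π τ (i, k)) = _
    fin_cases k <;> cases h : τ i <;> simp [mkFun, h, tl]
  · rintro ⟨π, τ⟩ _ ⟨π', τ'⟩ _ h
    have h' : ∀ p, mkFun π τ p = mkFun π' τ' p := fun p => congrArg (fun σ => σ p) h
    ext i
    · have := h' (i, 0)
      simp only [mkFun, Matrix.cons_val_zero, Prod.mk.injEq, and_true] at this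
      simp [this]
    · have := h' (i, 1)
      cases h1 : τ i <;> cases h2 : τ' i <;> simp [mkFun, h1, h2] at this ⊢
  · intro σ hσ
    simp only [Finset.mem_filter, Finset.mem_univ, true_and] at hσ
    have a0 : ∀ (i : Fin 5) (q : Fin 5 × Fin 4), tl q = tl (i, 0) → q = (q.1, 0) := by decide
    have a1 : ∀ (i : Fin 5) (q : Fin 5 × Fin 4), tl q = tl (i, 1) → q = (i, 1) ∨ q = (i, 2) := by
      decide
    have a2 : ∀ (i : Fin 5) (q : Fin 5 × Fin 4), tl q = tl (i, 2) → q = (i, 1) ∨ q = (i, 2) := by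
      decide
    have a3 : ∀ (i : Fin 5) (q : Fin 5 × Fin 4), tl q = tl (i, 3) → q = (i, 3) := by decide
    have hinj : Function.Injective (fun i : Fin 5 => (σ (i, 0)).1) := by
      intro i j hij
      have : σ (i, 0) = σ (j, 0) := by
        rw [a0 i _ (hσ _), a0 j _ (hσ _)]
        simp only at hij
        rw [hij]
      simpa using σ.injective this
    refine ⟨(Equiv.ofBijective _ (Finite.injective_iff_bijective.1 hinj),
      fun i => decide (σ (i, 1) = (i, 2))), by simp, ?_⟩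
    ext1 ⟨i, k⟩
    change mkFun _ _ (i, k) = _
    have hne : σ (i, 1) ≠ σ (i, 2) := by
      intro h; simpa using σ.injective h
    fin_cases k
    · simpa [mkFun] using (a0 i _ (hσ _)).symm
    · rcases a1 i _ (hσ _) with h | h <;> simp [mkFun, h]
    · rcases a1 i _ (hσ _) with h | h <;> rcases a2 i _ (hσ _) with h' | h'
      · exact absurd (h.trans h'.symm) hne
      · simp [mkFun, h, h']
      · simp [mkFun, h, h']
      · exact absurd (h.trans h'.symm) hne
    · simpa [mkFun] using (a3 i _ (hσ _)).symm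
  · intro _ _; rfl

/-- The entry of the reduced `5 × 5` matrix. -/
def entry (i j : Fin 5) (b : Bool) : ℤ :=
  om (sp (j, 0)) (sp (i, if b then 2 else 1)) * om (sp (i, if b then 1 else 2)) (sp (i, 3))

theorem perm_zero :
    ∑ π : Equiv.Perm (Fin 5), ∏ i : Fin 5, (entry i (π i) true + entry i (π i) false) = 0 := by
  decide +kernel

/-- The outward orientation. -/
noncomputable def out : Finset spider.Dart :=
  (Finset.univ.filter (fun p : Fin 5 × Fin 4 => p.2 = 0 ∨ p.2 = 2)).map dartEquiv.toEmbedding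

theorem out_orient : IsOrientation spider out := by
  intro d
  obtain ⟨p, rfl⟩ := dartEquiv.surjective d
  rw [dartEquiv_symm]
  simp only [out, Finset.mem_map_equiv, Equiv.symm_apply_apply, Finset.mem_filter,
    Finset.mem_univ, true_and]
  revert p; decide

theorem prod_out (F : spider.Dart → ℂ) :
    ∏ d ∈ out, F d = ∏ i : Fin 5, (F (dartEquiv (i, 0)) * F (dartEquiv (i, 2))) := by
  rw [out, Finset.prod_map, Finset.prod_filter, Fintype.prod_prod_type]
  refine Finset.prod_congr rfl fun i _ => ?_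
  simp [Fin.prod_univ_four]

theorem numerator_out :
    numerator spider (fun d => vec2 (sp (dartEquiv.symm d))) out = 0 := by
  classical
  have h1 : numerator spider (fun d => vec2 (sp (dartEquiv.symm d))) out =
      ∑ σ ∈ Finset.univ.filter (fun σ : Equiv.Perm (Fin 5 × Fin 4) => ∀ p, tl (σ p) = tl p),
        ∏ i : Fin 5, ((om (sp (σ (i, 0))) (sp (σ (i, 1))) : ℂ) *
          (om (sp (σ (i, 2))) (sp (σ (i, 3))) : ℂ)) := by
    unfold numerator
    symm
    refine Finset.sum_equiv dartEquiv.permCongr ?_ ?_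
    · intro σ
      simp only [Finset.mem_filter, Finset.mem_univ, true_and]
      constructor
      · intro h d
        obtain ⟨p, rfl⟩ := dartEquiv.surjective d
        simp only [Equiv.permCongr_apply, Equiv.symm_apply_apply]
        exact h p
      · intro h p
        have := h (dartEquiv p)
        simp only [Equiv.permCongr_apply, Equiv.symm_apply_apply] at this
        exact this
    · intro σ _
      rw [prod_out]
      refine Finset.prod_congr rfl fun i _ => ?_
      simp only [dartEquiv_symm, Equiv.permCongr_apply, Equiv.symm_apply_apply, omega_vec2]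
      rfl
  rw [h1, sum_labels]
  have h2 : ∀ π : Equiv.Perm (Fin 5), ∑ τ : Fin 5 → Bool,
      ∏ i : Fin 5, ((om (sp (mkPerm π τ (i, 0))) (sp (mkPerm π τ (i, 1))) : ℂ) *
          (om (sp (mkPerm π τ (i, 2))) (sp (mkPerm π τ (i, 3))) : ℂ)) =
      ((∏ i : Fin 5, (entry i (π i) true + entry i (π i) false) : ℤ) : ℂ) := by
    intro π
    have : ∀ τ : Fin 5 → Bool,
        ∏ i : Fin 5, ((om (sp (mkPerm π τ (i, 0))) (sp (mkPerm π τ (i, 1))) : ℂ) *
          (om (sp (mkPerm π τ (i, 2))) (sp (mkPerm π τ (i, 3))) : ℂ)) =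
        ∏ i : Fin 5, (entry i (π i) (τ i) : ℂ) := by
      intro τ
      refine Finset.prod_congr rfl fun i _ => ?_
      rw [entry, Int.cast_mul]
      rfl
    simp only [this]
    rw [← Fintype.piFinset_univ,
      ← Finset.prod_univ_sum (fun _ : Fin 5 => (Finset.univ : Finset Bool))
        (fun i b => (entry i (π i) b : ℂ))]
    simp
  simp only [h2]
  rw [← Int.cast_sum, perm_zero, Int.cast_zero]

theorem spider_isTree : spider.IsTree := by
  classical
  rw [SimpleGraph.isTree_iff_connected_and_card]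
  constructor
  · have h1 : ∀ i : Fin 5, spider.Reachable 0 (tl (i, 1)) := fun i =>
      SimpleGraph.Adj.reachable ⟨(i, 0), rfl, rfl⟩
    have h2 : ∀ i : Fin 5, spider.Reachable 0 (tl (i, 3)) := fun i =>
      (h1 i).trans (SimpleGraph.Adj.reachable ⟨(i, 2), rfl, rfl⟩)
    have h3 : ∀ v : Fin 11, v = 0 ∨ (∃ i, v = tl (i, 1)) ∨ ∃ i, v = tl (i, 3) := by decide
    have h4 : ∀ v, spider.Reachable 0 v := by
      intro v
      rcases h3 v with rfl | ⟨i, rfl⟩ | ⟨i, rfl⟩
      · rfl
      · exact h1 i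
      · exact h2 i
    exact ⟨fun u v => (h4 u).symm.trans (h4 v)⟩
  · have h1 := SimpleGraph.dart_card_eq_twice_card_edges spider
    rw [← Fintype.card_congr dartEquiv] at h1
    have h2 : Nat.card spider.edgeSet = spider.edgeFinset.card := by
      rw [Nat.card_eq_fintype_card, SimpleGraph.edgeFinset_card]
    rw [h2]
    simp only [Fintype.card_prod, Fintype.card_fin] at h1
    simp only [Nat.card_eq_fintype_card, Fintype.card_fin]
    omega

theorem config_injective : Function.Injective (fun i => vec3 (pts i)) := by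
  intro i j h
  have h0 : ((pts i).1 : ℝ) = (pts j).1 := by simpa [vec3] using congrArg (fun v => v 0) h
  have h2 : ((pts i).2.2 : ℝ) = (pts j).2.2 := by simpa [vec3] using congrArg (fun v => v 2) h
  have h0' : (pts i).1 = (pts j).1 := by exact_mod_cast h0
  have h2' : (pts i).2.2 = (pts j).2.2 := by exact_mod_cast h2
  have : ∀ i j : Fin 11, (pts i).1 = (pts j).1 → (pts i).2.2 = (pts j).2.2 → i = j := by decide
  exact this i j h0' h2'

theorem result :
    ∃ (n : ℕ) (G : SimpleGraph (Fin n)) (x : Fin n → EuclideanSpace ℝ (Fin 3)),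
      G.IsTree ∧ Function.Injective x ∧ (∀ i j, G.Adj i j → x i ≠ x j) ∧
      (∃ ψ Δ, IsSpinorChoice G x ψ ∧ IsOrientation G Δ) ∧
      ∀ ψ Δ, IsSpinorChoice G x ψ → IsOrientation G Δ →
        denominator G ψ Δ ≠ 0 ∧ amplitude G ψ Δ = 0 := by
  classical
  refine ⟨11, spider, fun i => vec3 (pts i), spider_isTree, config_injective, ?_, ?_, ?_⟩
  · rintro i j ⟨p, rfl, rfl⟩ h
    have h' : vec3 (pts (tl p)) = vec3 (pts (tl (rev p))) := h
    have h0 : ‖vec3 (pts (tl (rev p))) - vec3 (pts (tl p))‖ = 0 := by rw [h']; simp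
    rw [vec3_sub, pts_sub, norm_hopf] at h0
    exact sp_ne p (by exact_mod_cast h0)
  · refine ⟨fun d => ((‖vec2 (sp (dartEquiv.symm d))‖⁻¹ : ℝ) : ℂ) • vec2 (sp (dartEquiv.symm d)),
      out, ?_, out_orient⟩
    intro d
    obtain ⟨p, rfl⟩ := dartEquiv.surjective d
    simp only [Equiv.symm_apply_apply]
    constructor
    · have : vec2 (sp p) ≠ 0 := by
        intro h
        have h0 : ((sp p).1 : ℂ) = 0 := by simpa [vec2] using congrArg (fun v => v 0) h
        have h1 : ((sp p).2 : ℂ) = 0 := by simpa [vec2] using congrArg (fun v => v 1) h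
        apply sp_ne p
        have h0' : (sp p).1 = 0 := by exact_mod_cast h0
        have h1' : (sp p).2 = 0 := by exact_mod_cast h1
        simp [h0', h1']
      rw [norm_smul, Complex.norm_real, norm_inv, norm_norm,
        inv_mul_cancel₀ (norm_ne_zero_iff.2 this)]
    · rw [eigen_iff]
      simp [vec2]
      ring
  · intro ψ Δ hψ hΔ
    have hc : ∀ d, ∃ c : ℂ, c ≠ 0 ∧ ψ d = c • vec2 (sp (dartEquiv.symm d)) := by
      intro d
      obtain ⟨p, rfl⟩ := dartEquiv.surjective d
      obtain ⟨h1, h2⟩ := hψ (dartEquiv p)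
      rw [eigen_iff] at h2
      have hn : (((sp p).1 : ℂ) ^ 2 + ((sp p).2 : ℂ) ^ 2) ≠ 0 := by exact_mod_cast sp_ne p
      have h3 : ψ (dartEquiv p) = ((((sp p).1 : ℂ) * ψ (dartEquiv p) 0 +
          ((sp p).2 : ℂ) * ψ (dartEquiv p) 1) / (((sp p).1 : ℂ) ^ 2 + ((sp p).2 : ℂ) ^ 2)) •
          vec2 (sp p) := by
        ext i
        fin_cases i
        · simp only [vec2, Fin.zero_eta, PiLp.smul_apply, Matrix.cons_val_zero, smul_eq_mul]
          field_simp
          linear_combination (-((sp p).2 : ℂ)) * h2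
        · simp only [vec2, Fin.mk_one, PiLp.smul_apply, Matrix.cons_val_one, Matrix.cons_val_zero,
            smul_eq_mul]
          field_simp
          linear_combination (((sp p).1 : ℂ)) * h2
      refine ⟨_, ?_, by simpa using h3⟩
      intro h0
      rw [h0, zero_smul] at h3
      rw [h3] at h1
      simp at h1
    choose c hc0 hc using hc
    obtain ⟨ε, hε, hΔε⟩ := orient_change hΔ out_orient
    constructor
    · unfold denominator
      rw [Finset.prod_ne_zero_iff]
      intro d _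
      obtain ⟨p, rfl⟩ := dartEquiv.surjective d
      rw [hc, hc (dartEquiv p).symm, omega_smul, omega_vec2, dartEquiv_symm]
      simp only [Equiv.symm_apply_apply]
      refine mul_ne_zero (mul_ne_zero (hc0 _) (hc0 _)) ?_
      exact_mod_cast om_ne p
    · have : numerator spider ψ Δ = (ε * ∏ d, c d) *
          numerator spider (fun d => vec2 (sp (dartEquiv.symm d))) out := by
        unfold numerator
        rw [Finset.mul_sum]
        refine Finset.sum_congr rfl fun σ _ => ?_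
        rw [hΔε _ (fun d => by rw [SimpleGraph.Dart.symm_symm, omega_antisymm]), mul_assoc]
        congr 1
        rw [← Equiv.prod_comp σ c, ← prod_orient out_orient (fun d => c (σ d)),
          ← Finset.prod_mul_distrib]
        refine Finset.prod_congr rfl fun d _ => ?_
        rw [hc (σ d), hc (σ d.symm), omega_smul]
      rw [amplitude, this, numerator_out, mul_zero, zero_div]

end Pool.Agent.Results.MP_b525e0_co.SpiderZero
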