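import Pool.Agent.Lib.MP_b525e0_co.SC.Main

/-!
Forests of maximum degree at most three whose amplitude function has no zero.
-/

namespace Pool.Agent.Results.MP_b525e0_co.SubcubicForests

open Pool.Agent.Lib.MP_b525e0_co.SC

theorem result (n : ℕ) (G : SimpleGraph (Fin n)) [DecidableRel G.Adj] (hG : G.IsAcyclic)
    (h3 : ∀ v, G.degree v ≤ 3) :
    ZeroFree G ↔ ∃ r : Fin n → Fin n → ℝ,
      (∀ i j, G.Adj i j → 0 < r i j ∧ r i j * r j i = 1) ∧
      (∀ v a b, G.Adj v a → G.Adj v b → a ≠ b → r v a ^ 2 + 6 * r v a * r v b + r v b ^ 2 < 8) ∧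
      ∀ v a b c, G.Adj v a → G.Adj v b → G.Adj v c → a ≠ b → a ≠ c → b ≠ c →
        r v a + r v b + r v c < √3 :=
  zeroFree_iff hG fun v => sub3_of_degree (h3 v)

end Pool.Agent.Results.MP_b525e0_co.SubcubicForests
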